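import Pool.Agent.Lib.MP_95ac01_nt.Iface

/-!
# MP_95ac01_nt (S17823): module VAR
-/

set_option autoImplicit false

namespace Cub.H64

open Finset Cub

noncomputable section

/-- indicator of a proposition -/
def ind (p : Prop) [Decidable p] : ℝ := if p then 1 else 0

/-- the localised difference for one point -/
def phi (q W : ℕ) (x : Fin 4 → ℤ) (c : Mon → ℤ) : ℝ :=
  ind (ev c x = 0) - ind (ev c x ∈ mult q W) / ((mult q W).card : ℝ)

/-- the pair correlation -/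
def EE (q W H : ℕ) (x y : Fin 4 → ℤ) : ℝ := ∑ c ∈ box H, phi q W x c * phi q W y c

theorem sub_eq (A B q W : ℕ) (c : Mon → ℤ) :
    (Nf A B c : ℝ) - Mf A B q W c = ∑ x ∈ G A B, phi q W x c := by
  unfold Nf Mf phi ind
  rw [sum_sub_distrib, ← sum_div, card_filter, card_filter]
  push_cast
  rfl

theorem sum_sq_eq (A B H q W : ℕ) :
    ∑ c ∈ box H, ((Nf A B c : ℝ) - Mf A B q W c) ^ 2 =
      ∑ x ∈ G A B, ∑ y ∈ G A B, EE q W H x y := by
  unfold EE
  have h : ∀ c ∈ box H, ((Nf A B c : ℝ) - Mf A B q W c) ^ 2 =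
      ∑ x ∈ G A B, ∑ y ∈ G A B, phi q W x c * phi q W y c := by
    intro c _
    rw [sub_eq, sq, sum_mul_sum]
  rw [sum_congr rfl h, sum_comm]
  refine sum_congr rfl fun x _ => ?_
  rw [sum_comm]

theorem card_mult_pos (q W : ℕ) : (0 : ℝ) < ((mult q W).card : ℝ) := by
  exact_mod_cast (mult_nonempty q W).card_pos

theorem phi_mul (q W : ℕ) (x : Fin 4 → ℤ) (c : Mon → ℤ) :
    ((mult q W).card : ℝ) * phi q W x c =
      ∑ r ∈ mult q W, (ind (ev c x = 0) - ind (ev c x = r)) := by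
  have hJ := card_mult_pos q W
  have h1 : ∑ r ∈ mult q W, ind (ev c x = r) = ind (ev c x ∈ mult q W) := by
    unfold ind
    rw [sum_ite_eq]
  rw [sum_sub_distrib, h1, sum_const, nsmul_eq_mul]
  unfold phi
  field_simp

theorem n2_eq (x y : Fin 4 → ℤ) (r s : ℤ) (H : ℕ) :
    (n2 x y r s H : ℝ) = ∑ c ∈ box H, ind (ev c x = r) * ind (ev c y = s) := by
  unfold n2 ind
  rw [card_filter]
  push_cast
  refine sum_congr rfl fun c _ => ?_
  by_cases h1 : ev c x = r <;> by_cases h2 : ev c y = s <;> simp [h1, h2]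

theorem EE_le {q W H : ℕ} {x y : Fin 4 → ℤ} {K : ℝ}
    (h : ∀ r ∈ mult q W, ∀ s ∈ mult q W,
      (n2 x y 0 0 H : ℝ) - n2 x y r 0 H - n2 x y 0 s H + n2 x y r s H ≤ K) :
    EE q W H x y ≤ K := by
  have hJ := card_mult_pos q W
  set J : ℝ := ((mult q W).card : ℝ) with hJd
  have h1 : J ^ 2 * EE q W H x y = ∑ r ∈ mult q W, ∑ s ∈ mult q W,
      ((n2 x y 0 0 H : ℝ) - n2 x y r 0 H - n2 x y 0 s H + n2 x y r s H) := by
    unfold EE
    rw [mul_sum]
    have h2 : ∀ c ∈ box H, J ^ 2 * (phi q W x c * phi q W y c) =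
        ∑ r ∈ mult q W, ∑ s ∈ mult q W,
          (ind (ev c x = 0) * ind (ev c y = 0) - ind (ev c x = r) * ind (ev c y = 0) -
            ind (ev c x = 0) * ind (ev c y = s) + ind (ev c x = r) * ind (ev c y = s)) := by
      intro c _
      have e : J ^ 2 * (phi q W x c * phi q W y c) = (J * phi q W x c) * (J * phi q W y c) := by
        ring
      rw [e, hJd, phi_mul, phi_mul, sum_mul_sum]
      refine sum_congr rfl fun r _ => sum_congr rfl fun s _ => ?_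
      ring
    rw [sum_congr rfl h2, sum_comm]
    refine sum_congr rfl fun r _ => ?_
    rw [sum_comm]
    refine sum_congr rfl fun s _ => ?_
    rw [sum_add_distrib, sum_sub_distrib, sum_sub_distrib, ← n2_eq, ← n2_eq, ← n2_eq, ← n2_eq]
  have h3 : J ^ 2 * EE q W H x y ≤ J ^ 2 * K := by
    rw [h1]
    calc _ ≤ ∑ r ∈ mult q W, ∑ s ∈ mult q W, K :=
          sum_le_sum fun r hr => sum_le_sum fun s hs => h r hr s hs
      _ = J ^ 2 * K := by
          rw [sum_const, sum_const, nsmul_eq_mul, nsmul_eq_mul, ← hJd]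
          ring
  exact le_of_mul_le_mul_left h3 (by positivity)

theorem n2_le_n1 (x y : Fin 4 → ℤ) (r s : ℤ) (H : ℕ) : n2 x y r s H ≤ n1 x r H := by
  unfold n2 n1
  apply card_le_card
  intro c hc
  rw [mem_filter] at hc ⊢
  exact ⟨hc.1, hc.2.1⟩

theorem G_pos {A B : ℕ} {x : Fin 4 → ℤ} (hx : x ∈ G A B) : 1 ≤ A ∧ 1 ≤ B := by
  rw [mem_G, mem_shell] at hx
  obtain ⟨⟨h1, -, i, h2⟩, l, hl, -, h3⟩ := hx
  constructor
  · by_contra hA
    have hA0 : A = 0 := by omega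
    have : l 0 = 0 := by
      funext j
      have := h3 0 j
      rw [hA0] at this
      simpa using this
    exact hl.ne_zero 0 this
  · by_contra hB
    have hB0 : B = 0 := by omega
    have h4 := h1 i
    rw [hB0] at h4 h2
    push_cast at h4 h2
    omega

theorem card_G_le {A B : ℕ} (hB : 1 ≤ B) : ((G A B).card : ℝ) ≤ 81 * (B : ℝ) ^ 4 := by
  have h1 : (G A B).card ≤ (2 * B + 1) ^ 4 := by
    rw [← card_cube]
    apply card_le_card
    intro x hx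
    rw [mem_G, mem_shell] at hx
    exact mem_cube.2 hx.1.1
  have h2 : (2 * B + 1) ^ 4 ≤ 81 * B ^ 4 := by
    calc (2 * B + 1) ^ 4 ≤ (3 * B) ^ 4 := Nat.pow_le_pow_left (by omega) 4
      _ = 81 * B ^ 4 := by ring
  exact_mod_cast h1.trans h2

theorem card_wd_zero {A B : ℕ} {x : Fin 4 → ℤ} (hx : x ∈ G A B) :
    (((G A B).filter fun y => wd x y = 0).card : ℝ) ≤ 2 := by
  have h : (G A B).filter (fun y => wd x y = 0) ⊆ {x, -x} := by
    intro y hy
    rw [mem_filter, mem_G, mem_shell] at hy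
    rw [mem_G, mem_shell] at hx
    rw [mem_insert, mem_singleton]
    exact prim_parallel hx.1.2.1 hy.1.1.2.1 hy.2
  have h2 : ((G A B).filter fun y => wd x y = 0).card ≤ 2 := (card_le_card h).trans card_le_two
  exact_mod_cast h2

theorem var (h1 : Upper1Statement) (h2 : Upper2Statement) (h3 : Main2Statement)
    (h4 : PairSumStatement) : VarStatement := by
  obtain ⟨C1, h1⟩ := h1
  obtain ⟨C2, h2⟩ := h2
  obtain ⟨C4, h3⟩ := h3
  obtain ⟨C3, hC3, h4⟩ := h4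
  obtain ⟨C, hC⟩ : ∃ C : ℕ, C = C1 + C2 + C4 + 1 +
      ⌈324 * (C1 : ℝ) + 162 * C2 * C3 + 486 * C4 * C3⌉₊ := ⟨_, rfl⟩
  have hC1 : C1 ≤ C := by omega
  have hC2 : C2 ≤ C := by omega
  have hC4 : C4 ≤ C := by omega
  have hC0 : 1 ≤ C := by omega
  have hCr : 324 * (C1 : ℝ) + 162 * C2 * C3 + 486 * C4 * C3 ≤ C := by
    refine (Nat.le_ceil _).trans ?_
    rw [hC]
    push_cast
    have : (0 : ℝ) ≤ (C1 : ℝ) + C2 + C4 + 1 := by positivity
    linarith
  clear hC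
  refine ⟨C, fun A B H T q W hT hq hA hW => ?_⟩
  rw [sum_sq_eq]
  rcases (G A B).eq_empty_or_nonempty with hG | ⟨x0, hx0⟩
  · rw [hG, sum_empty]
    positivity
  obtain ⟨hA1, hB1⟩ := G_pos hx0
  have hH1 : 1 ≤ H := by
    have : 1 ≤ C * A ^ 2 := Nat.mul_pos hC0 (by positivity)
    omega
  have hB : (0 : ℝ) < B := by exact_mod_cast hB1
  have hH : (0 : ℝ) < H := by exact_mod_cast hH1
  have hT' : (0 : ℝ) < T := by exact_mod_cast hT
  have hAr : (0 : ℝ) < A := by exact_mod_cast hA1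
  have hA2 : C1 * A ^ 2 ≤ H := (Nat.mul_le_mul_right _ hC1).trans hA
  have hA3 : C2 * A ^ 2 ≤ H := (Nat.mul_le_mul_right _ hC2).trans hA
  have hA4 : C4 * A ^ 2 ≤ H := (Nat.mul_le_mul_right _ hC4).trans hA
  have hW4 : C4 * T * W ≤ H * B ^ 3 := by
    refine le_trans ?_ hW
    gcongr
  obtain ⟨X, hX⟩ : ∃ X : ℝ, X = T * W / (H * (B : ℝ) ^ 3) + (A : ℝ) ^ 2 / H := ⟨_, rfl⟩
  have hX0 : 0 ≤ X := by
    rw [hX]
    positivity
  have hX2 : X ≤ 2 := by
    have e1 : (T : ℝ) * W / (H * (B : ℝ) ^ 3) ≤ 1 := by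
      rw [div_le_one (by positivity)]
      have : T * W ≤ H * B ^ 3 := by
        refine le_trans ?_ hW
        rw [mul_assoc]
        exact Nat.le_mul_of_pos_left _ hC0
      exact_mod_cast this
    have e2 : (A : ℝ) ^ 2 / H ≤ 1 := by
      rw [div_le_one hH]
      have : A ^ 2 ≤ H := (Nat.le_mul_of_pos_left _ hC0).trans hA
      exact_mod_cast this
    rw [hX]
    linarith
  -- constants of the three cases
  obtain ⟨K1, hK1⟩ : ∃ K : ℝ, K = 2 * (C1 * (H : ℝ) ^ 19 / (B : ℝ) ^ 3) := ⟨_, rfl⟩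
  obtain ⟨K2, hK2⟩ : ∃ K : ℝ, K = 2 * (C2 * (H : ℝ) ^ 18 / (B : ℝ) ^ 4) := ⟨_, rfl⟩
  obtain ⟨K3, hK3⟩ : ∃ K : ℝ, K = 3 * (C4 * (H : ℝ) ^ 18 / (B : ℝ) ^ 4 * X) := ⟨_, rfl⟩
  have hK10 : 0 ≤ K1 := by rw [hK1]; positivity
  have hK20 : 0 ≤ K2 := by rw [hK2]; positivity
  have hK30 : 0 ≤ K3 := by rw [hK3]; positivity
  have hpt : ∀ x ∈ G A B, ∀ y ∈ G A B, EE q W H x y ≤
      (if wd x y = 0 then K1 else 0) +
      (if 0 < wd x y ∧ wd x y ≤ (B ^ 2 / T) * gd x y then K2 * ((gd x y : ℝ) / wd x y) else 0) +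
      (if 0 < wd x y ∧ wd x y ≤ (2 * B ^ 2) * gd x y then K3 * ((gd x y : ℝ) / wd x y) else 0) := by
    intro x hx y hy
    have hn2 : (0 : ℝ) ≤ if 0 < wd x y ∧ wd x y ≤ (B ^ 2 / T) * gd x y then
        K2 * ((gd x y : ℝ) / wd x y) else 0 := by
      split_ifs
      · positivity
      · exact le_rfl
    have hn3 : (0 : ℝ) ≤ if 0 < wd x y ∧ wd x y ≤ (2 * B ^ 2) * gd x y then
        K3 * ((gd x y : ℝ) / wd x y) else 0 := by
      split_ifs
      · positivity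
      · exact le_rfl
    rcases Nat.eq_zero_or_pos (wd x y) with hw | hw
    · -- case (i)
      rw [if_pos hw]
      have : EE q W H x y ≤ K1 := by
        apply EE_le
        intro r hr s hs
        have a1 : ∀ r : ℤ, (n1 x r H : ℝ) ≤ C1 * (H : ℝ) ^ 19 / (B : ℝ) ^ 3 := by
          intro r
          rw [le_div_iff₀ (by positivity)]
          exact_mod_cast h1 A B H x hx hA2 r
        have a2 : (n2 x y 0 0 H : ℝ) ≤ n1 x 0 H := by exact_mod_cast n2_le_n1 x y 0 0 H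
        have a3 : (n2 x y r s H : ℝ) ≤ n1 x r H := by exact_mod_cast n2_le_n1 x y r s H
        have a4 := a1 0
        have a5 := a1 r
        have a6 : (0 : ℝ) ≤ n2 x y r 0 H := Nat.cast_nonneg _
        have a7 : (0 : ℝ) ≤ n2 x y 0 s H := Nat.cast_nonneg _
        rw [hK1]
        linarith
      linarith
    · rw [if_neg hw.ne']
      have hg : 0 < gd x y := (gd_pos_iff x y).2 hw
      have hw' : (0 : ℝ) < (wd x y : ℝ) := by exact_mod_cast hw
      have hg' : (0 : ℝ) < (gd x y : ℝ) := by exact_mod_cast hg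
      obtain ⟨w', hw2⟩ := gd_dvd_wd x y
      rcases Nat.lt_or_ge (T * wd x y) (B ^ 2 * gd x y) with hc | hc
      · -- case (ii)
        have hle : wd x y ≤ (B ^ 2 / T) * gd x y := by
          rw [hw2, mul_comm (gd x y) w']
          apply Nat.mul_le_mul_right
          rw [Nat.le_div_iff_mul_le (by omega)]
          rw [hw2] at hc
          have : gd x y * (w' * T) < gd x y * B ^ 2 := by
            calc gd x y * (w' * T) = T * (gd x y * w') := by ring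
              _ < B ^ 2 * gd x y := hc
              _ = gd x y * B ^ 2 := by ring
          exact (Nat.lt_of_mul_lt_mul_left this).le
        have e0 : (if 0 < wd x y ∧ wd x y ≤ (B ^ 2 / T) * gd x y then
            K2 * ((gd x y : ℝ) / wd x y) else 0) = K2 * ((gd x y : ℝ) / wd x y) :=
          if_pos ⟨hw, hle⟩
        rw [e0]
        have : EE q W H x y ≤ K2 * ((gd x y : ℝ) / wd x y) := by
          apply EE_le
          intro r hr s hs
          have a1 : ∀ r s : ℤ, (n2 x y r s H : ℝ) ≤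
              C2 * (H : ℝ) ^ 18 / (B : ℝ) ^ 4 * ((gd x y : ℝ) / wd x y) := by
            intro r s
            have e1 : (n2 x y r s H : ℝ) * ((B : ℝ) ^ 4 * wd x y) ≤
                C2 * (H : ℝ) ^ 18 * gd x y := by
              exact_mod_cast h2 A B H x y hx hy hw hA3 r s
            rw [div_mul_div_comm, le_div_iff₀ (by positivity)]
            exact e1
          have a2 := a1 0 0
          have a3 := a1 r s
          have a6 : (0 : ℝ) ≤ n2 x y r 0 H := Nat.cast_nonneg _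
          have a7 : (0 : ℝ) ≤ n2 x y 0 s H := Nat.cast_nonneg _
          rw [hK2]
          linarith
        linarith
      · -- case (iii)
        have hle2 : wd x y ≤ 2 * B ^ 2 := by
          rw [mem_G, mem_shell] at hx hy
          exact wd_le_two_mul hx.1.1 hy.1.1
        have hle : wd x y ≤ (2 * B ^ 2) * gd x y :=
          hle2.trans (Nat.le_mul_of_pos_right _ hg)
        have e0 : (if 0 < wd x y ∧ wd x y ≤ (2 * B ^ 2) * gd x y then
            K3 * ((gd x y : ℝ) / wd x y) else 0) = K3 * ((gd x y : ℝ) / wd x y) :=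
          if_pos ⟨hw, hle⟩
        rw [e0]
        have hgT : gd x y ≤ 2 * T := by
          have e1 : B ^ 2 * gd x y ≤ B ^ 2 * (2 * T) := by
            calc B ^ 2 * gd x y ≤ T * wd x y := hc
              _ ≤ T * (2 * B ^ 2) := Nat.mul_le_mul_left _ hle2
              _ = B ^ 2 * (2 * T) := by ring
          exact Nat.le_of_mul_le_mul_left e1 (by positivity)
        have hgq : gd x y ∣ q := hq _ hg hgT
        have hBT : B ^ 2 ≤ T * wd x y := (Nat.le_mul_of_pos_right _ hg).trans hc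
        have : EE q W H x y ≤ K3 * ((gd x y : ℝ) / wd x y) := by
          apply EE_le
          intro r hr s hs
          rw [mem_mult] at hr hs
          have hgz : ((gd x y : ℕ) : ℤ) ∣ (q : ℤ) := by exact_mod_cast hgq
          have a1 : ∀ r s : ℤ, |r| ≤ (W : ℤ) → |s| ≤ (W : ℤ) → (gd x y : ℤ) ∣ r →
              (gd x y : ℤ) ∣ s → |(n2 x y r s H : ℝ) - n2 x y 0 0 H| ≤
              C4 * (H : ℝ) ^ 18 / (B : ℝ) ^ 4 * X * ((gd x y : ℝ) / wd x y) := by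
            intro r s b1 b2 b3 b4
            have e1 := h3 A B H T W x y hx hy hw hA4 hBT hW4 r s b1 b2 b3 b4
            rw [← hX] at e1
            have e2 : C4 * (H : ℝ) ^ 18 / (B : ℝ) ^ 4 * X * ((gd x y : ℝ) / wd x y) =
                (C4 * (H : ℝ) ^ 18 * gd x y * X) / ((B : ℝ) ^ 4 * wd x y) := by
              field_simp
            rw [e2, le_div_iff₀ (by positivity)]
            exact e1
          have z0 : |(0 : ℤ)| ≤ (W : ℤ) := by simp
          have a2 := a1 r 0 hr.1 z0 (hgz.trans hr.2) (dvd_zero _)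
          have a3 := a1 0 s z0 hs.1 (dvd_zero _) (hgz.trans hs.2)
          have a4 := a1 r s hr.1 hs.1 (hgz.trans hr.2) (hgz.trans hs.2)
          have b2 := (abs_le.1 a2).1
          have b3 := (abs_le.1 a3).1
          have b4 := (abs_le.1 a4).2
          rw [hK3]
          linarith
        linarith
  -- summation over y
  have hrow : ∀ x ∈ G A B, ∑ y ∈ G A B, EE q W H x y ≤
      2 * K1 + K2 * (C3 * ((A : ℝ) ^ 3 + (B : ℝ) ^ 2 / T)) +
        K3 * (C3 * ((A : ℝ) ^ 3 + 2 * (B : ℝ) ^ 2)) := by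
    intro x hx
    refine (sum_le_sum (hpt x hx)).trans ?_
    rw [sum_add_distrib, sum_add_distrib, ← sum_filter, ← sum_filter, ← sum_filter, sum_const,
      nsmul_eq_mul, ← mul_sum, ← mul_sum]
    have e1 := card_wd_zero hx
    have e2 := h4 A B x hx (B ^ 2 / T)
    have e3 := h4 A B x hx (2 * B ^ 2)
    have e4 : ((B ^ 2 / T : ℕ) : ℝ) ≤ (B : ℝ) ^ 2 / T := by
      have := @Nat.cast_div_le ℝ _ _ _ (B ^ 2) T
      push_cast at this
      exact this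
    push_cast at e3
    have f1 : (((G A B).filter fun y => wd x y = 0).card : ℝ) * K1 ≤ 2 * K1 := by gcongr
    have f2 : K2 * (∑ y ∈ (G A B).filter (fun y => 0 < wd x y ∧ wd x y ≤ (B ^ 2 / T) * gd x y),
        (gd x y : ℝ) / wd x y) ≤ K2 * (C3 * ((A : ℝ) ^ 3 + (B : ℝ) ^ 2 / T)) := by
      gcongr
      refine e2.trans ?_
      gcongr
    have f3 : K3 * (∑ y ∈ (G A B).filter (fun y => 0 < wd x y ∧ wd x y ≤ (2 * B ^ 2) * gd x y),
        (gd x y : ℝ) / wd x y) ≤ K3 * (C3 * ((A : ℝ) ^ 3 + 2 * (B : ℝ) ^ 2)) := by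
      gcongr
    linarith
  have htot : ∑ x ∈ G A B, ∑ y ∈ G A B, EE q W H x y ≤
      81 * (B : ℝ) ^ 4 * (2 * K1 + K2 * (C3 * ((A : ℝ) ^ 3 + (B : ℝ) ^ 2 / T)) +
        K3 * (C3 * ((A : ℝ) ^ 3 + 2 * (B : ℝ) ^ 2))) := by
    refine (sum_le_sum hrow).trans ?_
    rw [sum_const, nsmul_eq_mul]
    have := card_G_le (A := A) hB1
    gcongr
  refine htot.trans ?_
  -- final bookkeeping
  have g1 : 81 * (B : ℝ) ^ 4 * (2 * K1) = 324 * C1 * ((H : ℝ) ^ 18 * (B : ℝ) ^ 2 * (H / B)) := by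
    rw [hK1]
    field_simp
    ring
  have g2 : 81 * (B : ℝ) ^ 4 * (K2 * (C3 * ((A : ℝ) ^ 3 + (B : ℝ) ^ 2 / T))) =
      162 * C2 * C3 * ((H : ℝ) ^ 18 * (B : ℝ) ^ 2 * ((A : ℝ) ^ 3 / (B : ℝ) ^ 2 + 1 / T)) := by
    rw [hK2]
    field_simp
    ring
  have g3 : 81 * (B : ℝ) ^ 4 * (K3 * (C3 * ((A : ℝ) ^ 3 + 2 * (B : ℝ) ^ 2))) ≤
      486 * C4 * C3 * ((H : ℝ) ^ 18 * (B : ℝ) ^ 2 * ((A : ℝ) ^ 3 / (B : ℝ) ^ 2 + X)) := by
    have e1 : 81 * (B : ℝ) ^ 4 * (K3 * (C3 * ((A : ℝ) ^ 3 + 2 * (B : ℝ) ^ 2))) =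
        243 * C4 * C3 * (H : ℝ) ^ 18 * (X * (A : ℝ) ^ 3 + 2 * (B : ℝ) ^ 2 * X) := by
      rw [hK3]
      field_simp
      ring
    have e2 : 486 * C4 * C3 * ((H : ℝ) ^ 18 * (B : ℝ) ^ 2 * ((A : ℝ) ^ 3 / (B : ℝ) ^ 2 + X)) =
        243 * C4 * C3 * (H : ℝ) ^ 18 * (2 * (A : ℝ) ^ 3 + 2 * (B : ℝ) ^ 2 * X) := by
      field_simp
      ring
    rw [e1, e2]
    gcongr
  obtain ⟨Y, hY⟩ : ∃ Y : ℝ, Y = 1 / (T : ℝ) + T * W / (H * (B : ℝ) ^ 3) + (A : ℝ) ^ 2 / H +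
      (A : ℝ) ^ 3 / (B : ℝ) ^ 2 + H / B := ⟨_, rfl⟩
  rw [← hY]
  have p1 : (0 : ℝ) ≤ 1 / (T : ℝ) := by positivity
  have p2 : (0 : ℝ) ≤ (A : ℝ) ^ 3 / (B : ℝ) ^ 2 := by positivity
  have p3 : (0 : ℝ) ≤ (H : ℝ) / B := by positivity
  have y1 : (H : ℝ) / B ≤ Y := by
    rw [hY]
    rw [hX] at hX0
    linarith
  have y2 : (A : ℝ) ^ 3 / (B : ℝ) ^ 2 + 1 / T ≤ Y := by
    rw [hY]
    rw [hX] at hX0
    linarith
  have y3 : (A : ℝ) ^ 3 / (B : ℝ) ^ 2 + X ≤ Y := by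
    rw [hY, hX]
    linarith
  have hY0 : 0 ≤ Y := p3.trans y1
  have k1 : 324 * C1 * ((H : ℝ) ^ 18 * (B : ℝ) ^ 2 * (H / B)) ≤
      324 * C1 * ((H : ℝ) ^ 18 * (B : ℝ) ^ 2 * Y) := by gcongr
  have k2 : 162 * C2 * C3 * ((H : ℝ) ^ 18 * (B : ℝ) ^ 2 * ((A : ℝ) ^ 3 / (B : ℝ) ^ 2 + 1 / T)) ≤
      162 * C2 * C3 * ((H : ℝ) ^ 18 * (B : ℝ) ^ 2 * Y) := by gcongr
  have k3 : 486 * C4 * C3 * ((H : ℝ) ^ 18 * (B : ℝ) ^ 2 * ((A : ℝ) ^ 3 / (B : ℝ) ^ 2 + X)) ≤
      486 * C4 * C3 * ((H : ℝ) ^ 18 * (B : ℝ) ^ 2 * Y) := by gcongr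
  calc 81 * (B : ℝ) ^ 4 * (2 * K1 + K2 * (C3 * ((A : ℝ) ^ 3 + (B : ℝ) ^ 2 / T)) +
        K3 * (C3 * ((A : ℝ) ^ 3 + 2 * (B : ℝ) ^ 2)))
      = 81 * (B : ℝ) ^ 4 * (2 * K1) +
        81 * (B : ℝ) ^ 4 * (K2 * (C3 * ((A : ℝ) ^ 3 + (B : ℝ) ^ 2 / T))) +
        81 * (B : ℝ) ^ 4 * (K3 * (C3 * ((A : ℝ) ^ 3 + 2 * (B : ℝ) ^ 2))) := by ring
    _ ≤ 324 * C1 * ((H : ℝ) ^ 18 * (B : ℝ) ^ 2 * Y) +
        162 * C2 * C3 * ((H : ℝ) ^ 18 * (B : ℝ) ^ 2 * Y) +
        486 * C4 * C3 * ((H : ℝ) ^ 18 * (B : ℝ) ^ 2 * Y) := by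
        rw [g1, g2]
        linarith
    _ = (324 * (C1 : ℝ) + 162 * C2 * C3 + 486 * C4 * C3) * ((H : ℝ) ^ 18 * (B : ℝ) ^ 2 * Y) := by
        ring
    _ ≤ C * ((H : ℝ) ^ 18 * (B : ℝ) ^ 2 * Y) := by gcongr
    _ = C * (H : ℝ) ^ 18 * (B : ℝ) ^ 2 * Y := by ring

end

end Cub.H64
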